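import Pool.Agent.Helper62.NT.Goals

/-!
Project NT (MP_8ff381_an), packet NT-SMALL: sequences with small values have small variation
(helper25).
-/

set_option autoImplicit false

namespace Pool.Agent.Helper25.NT.SMALL

open Pool.Agent.Helper62.NT Finset

instance : Nonempty (ℕ × {p : ℕ → ℕ // Monotone p}) := ⟨(0, ⟨id, monotone_id⟩)⟩

lemma qs_nonneg (a : ℕ → ℝ) (n : ℕ) (p : ℕ → ℕ) : 0 ≤ qs a n p :=
  Finset.sum_nonneg fun _ _ => sq_nonneg _

lemma bdd {a : ℕ → ℝ} (ha : BV a) :
    BddAbove (Set.range fun c : ℕ × {p : ℕ → ℕ // Monotone p} => Real.sqrt (qs a c.1 c.2.1)) := by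
  obtain ⟨C, hC⟩ := ha
  refine ⟨Real.sqrt C, ?_⟩
  rintro _ ⟨c, rfl⟩
  exact Real.sqrt_le_sqrt (hC c.1 c.2.1 c.2.2)

lemma qs_le_V {a : ℕ → ℝ} (ha : BV a) (n : ℕ) (p : ℕ → ℕ) (hp : Monotone p) :
    qs a n p ≤ V a ^ 2 := by
  have h : Real.sqrt (qs a n p) ≤ V a := le_ciSup (bdd ha) (n, ⟨p, hp⟩)
  exact (Real.sqrt_le_iff.1 h).2

lemma V_nonneg {a : ℕ → ℝ} (ha : BV a) : 0 ≤ V a :=
  le_trans (Real.sqrt_nonneg _) (le_ciSup (bdd ha) (0, ⟨id, monotone_id⟩))

lemma exists_chain {a : ℕ → ℝ} (ha : BV a) {δ : ℝ} (hδ : 0 < δ) :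
    ∃ (n : ℕ) (p : ℕ → ℕ), Monotone p ∧ V a ^ 2 - δ < qs a n p := by
  rcases (V_nonneg ha).eq_or_lt with h0 | h0
  · refine ⟨0, id, monotone_id, ?_⟩
    rw [← h0]
    have := qs_nonneg a 0 id
    nlinarith
  · have h1 : Real.sqrt (V a ^ 2 - δ) < V a := (Real.sqrt_lt' h0).2 (by linarith)
    obtain ⟨c, hc⟩ := exists_lt_of_lt_ciSup (f := fun c : ℕ × {p : ℕ → ℕ // Monotone p} =>
      Real.sqrt (qs a c.1 c.2.1)) h1
    refine ⟨c.1, c.2.1, c.2.2, ?_⟩
    by_contra hcon
    push Not at hcon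
    exact absurd hc (not_lt.2 (Real.sqrt_le_sqrt hcon))

lemma qs_max (w : ℕ → ℝ) (K n : ℕ) (p : ℕ → ℕ) :
    qs (fun t => w (max t K) - w K) n p = qs w n (fun i => max (p i) K) := by
  unfold qs
  refine Finset.sum_congr rfl fun i _ => ?_
  ring

lemma qs_min (w : ℕ → ℝ) (K n : ℕ) (p : ℕ → ℕ) :
    qs (fun t => w (min t K)) n p = qs w n (fun i => min (p i) K) := rfl

lemma mono_max {p : ℕ → ℕ} (hp : Monotone p) (K : ℕ) : Monotone fun i => max (p i) K :=
  fun _ _ h => max_le_max (hp h) le_rfl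

lemma mono_min {p : ℕ → ℕ} (hp : Monotone p) (K : ℕ) : Monotone fun i => min (p i) K :=
  fun _ _ h => min_le_min (hp h) le_rfl

lemma concat {a : ℕ → ℝ} (n m : ℕ) (p r : ℕ → ℕ) (hp : Monotone p) (hr : Monotone r)
    (h : p n ≤ r 0) :
    ∃ q : ℕ → ℕ, Monotone q ∧ qs a n p + qs a m r ≤ qs a (n + 1 + m) q := by
  refine ⟨fun i => if i ≤ n then p i else r (i - (n + 1)), ?_, ?_⟩
  · refine monotone_nat_of_le_succ fun i => ?_
    by_cases h1 : i + 1 ≤ n
    · rw [if_pos (by omega : i ≤ n), if_pos h1]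
      exact hp (Nat.le_succ i)
    · rw [if_neg h1]
      by_cases h2 : i ≤ n
      · rw [if_pos h2]
        have : i = n := by omega
        subst this
        rw [Nat.sub_self]
        exact h
      · rw [if_neg h2]
        exact hr (by omega)
  · unfold qs
    rw [Finset.sum_range_add, Finset.sum_range_succ]
    have e1 : ∑ i ∈ range n, (a (if i + 1 ≤ n then p (i + 1) else r (i + 1 - (n + 1))) -
        a (if i ≤ n then p i else r (i - (n + 1)))) ^ 2 =
        ∑ i ∈ range n, (a (p (i + 1)) - a (p i)) ^ 2 := by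
      refine Finset.sum_congr rfl fun i hi => ?_
      have := Finset.mem_range.1 hi
      rw [if_pos (by omega), if_pos (by omega)]
    have e2 : ∑ i ∈ range m, (a (if n + 1 + i + 1 ≤ n then p (n + 1 + i + 1) else
        r (n + 1 + i + 1 - (n + 1))) -
        a (if n + 1 + i ≤ n then p (n + 1 + i) else r (n + 1 + i - (n + 1)))) ^ 2 =
        ∑ i ∈ range m, (a (r (i + 1)) - a (r i)) ^ 2 := by
      refine Finset.sum_congr rfl fun i hi => ?_
      rw [if_neg (by omega), if_neg (by omega)]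
      have e3 : n + 1 + i + 1 - (n + 1) = i + 1 := by omega
      have e4 : n + 1 + i - (n + 1) = i := by omega
      rw [e3, e4]
    rw [e1, e2]
    have := sq_nonneg (a (if n + 1 ≤ n then p (n + 1) else r (n + 1 - (n + 1))) -
        a (if n ≤ n then p n else r (n - (n + 1))))
    linarith

theorem t : S_SMALL := by
  refine ⟨?_, ?_, ?_⟩
  · intro a K δ ha hK n p hp
    have hmin : ∀ t, a t = a (min t K) := by
      intro t
      rcases le_total t K with h | h
      · rw [min_eq_left h]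
      · rw [min_eq_right h]; exact hK t h
    have h1 : ∀ i, (a (p (i + 1)) - a (p i)) ^ 2 ≤
        4 * δ ^ 2 * (((min (p (i + 1)) K : ℕ) : ℝ) - ((min (p i) K : ℕ) : ℝ)) := by
      intro i
      have hle : min (p i) K ≤ min (p (i + 1)) K := min_le_min (hp (Nat.le_succ i)) le_rfl
      rw [hmin (p (i + 1)), hmin (p i)]
      rcases hle.eq_or_lt with h | h
      · rw [h, sub_self, sub_self]; simp
      · have h2 : (1 : ℝ) ≤ ((min (p (i + 1)) K : ℕ) : ℝ) - ((min (p i) K : ℕ) : ℝ) := by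
          have : ((min (p i) K : ℕ) : ℝ) + 1 ≤ ((min (p (i + 1)) K : ℕ) : ℝ) := by
            exact_mod_cast h
          linarith
        have h3 := abs_le.1 (ha (min (p (i + 1)) K))
        have h4 := abs_le.1 (ha (min (p i) K))
        have h5 : (a (min (p (i + 1)) K) - a (min (p i) K)) ^ 2 ≤ 4 * δ ^ 2 := by
          have : |a (min (p (i + 1)) K) - a (min (p i) K)| ≤ 2 * δ := by
            rw [abs_le]; constructor <;> linarith [h3.1, h3.2, h4.1, h4.2]
          have h6 := sq_le_sq' (by linarith [(abs_le.1 this).1]) (abs_le.1 this).2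
          nlinarith
        have h7 : 0 ≤ 4 * δ ^ 2 := by positivity
        nlinarith
    calc qs a n p ≤ ∑ i ∈ range n,
          4 * δ ^ 2 * (((min (p (i + 1)) K : ℕ) : ℝ) - ((min (p i) K : ℕ) : ℝ)) :=
          Finset.sum_le_sum fun i _ => h1 i
      _ = 4 * δ ^ 2 * (((min (p n) K : ℕ) : ℝ) - ((min (p 0) K : ℕ) : ℝ)) := by
          rw [← Finset.mul_sum, Finset.sum_range_sub (fun i => ((min (p i) K : ℕ) : ℝ))]
      _ ≤ 4 * δ ^ 2 * K := by
          refine mul_le_mul_of_nonneg_left ?_ (by positivity)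
          have h2 : ((min (p n) K : ℕ) : ℝ) ≤ K := by exact_mod_cast min_le_right _ _
          have h3 : (0 : ℝ) ≤ ((min (p 0) K : ℕ) : ℝ) := Nat.cast_nonneg _
          linarith
      _ = 4 * K * δ ^ 2 := by ring
  · intro w K C hw n p hp
    rw [qs_max]
    exact hw n _ (mono_max hp K)
  · intro a δ ha hδ
    obtain ⟨n, p, hp, hn⟩ := exists_chain ha hδ
    obtain ⟨C, hC⟩ := id ha
    refine ⟨p n, fun K hK => ?_⟩
    have hbv : BV (fun t => a (min t K)) := ⟨C, fun m q hq => by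
      rw [qs_min]; exact hC m _ (mono_min hq K)⟩
    refine ⟨?_, ?_, ?_⟩
    · intro m q hq
      rw [qs_max]
      obtain ⟨q', hq', hle⟩ := concat (a := a) n m p (fun i => max (q i) K) hp (mono_max hq K)
        (le_trans hK (le_max_right _ _))
      have := qs_le_V ha (n + 1 + m) q' hq'
      linarith
    · have h1 : qs (fun t => a (min t K)) n p = qs a n p := by
        unfold qs
        refine Finset.sum_congr rfl fun i hi => ?_
        have hi' := Finset.mem_range.1 hi
        have e1 : p (i + 1) ≤ K := le_trans (hp (by omega : i + 1 ≤ n)) hK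
        have e2 : p i ≤ K := le_trans (hp (by omega : i ≤ n)) hK
        simp only [min_eq_left e1, min_eq_left e2]
      have := qs_le_V hbv n p hp
      rw [h1] at this
      linarith
    · refine ciSup_le fun c => ?_
      rw [qs_min]
      exact le_ciSup (bdd ha) (c.1, ⟨_, mono_min c.2.2 K⟩)

end Pool.Agent.Helper25.NT.SMALL
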